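import Pool.Agent.H90.STE.Stmts
import Pool.Agent.H33.STK.CMP

/-!
# Sticky families with a random time: module CM (slices of the integer line)
-/

set_option autoImplicit false

namespace Pool.STE.CM

open Finset Real
open Pool.Agent.H49.Ent Pool.Agent.H32.Dense Pool.STK Pool.KA

/-- Rounding of a sum. -/
lemma fl_sum {ι : Type} (s : Finset ι) (x : ℝ) (y : ι → ℝ) :
    0 ≤ ⌊x + ∑ i ∈ s, y i⌋ - (⌊x⌋ + ∑ i ∈ s, ⌊y i⌋) ∧
      ⌊x + ∑ i ∈ s, y i⌋ - (⌊x⌋ + ∑ i ∈ s, ⌊y i⌋) ≤ s.card := by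
  have h1 := Int.floor_le x
  have h2 := Int.lt_floor_add_one x
  have h3 : ∑ i ∈ s, ((⌊y i⌋ : ℤ) : ℝ) ≤ ∑ i ∈ s, y i :=
    Finset.sum_le_sum fun i _ => Int.floor_le _
  have h4 : ∑ i ∈ s, y i ≤ ∑ i ∈ s, (((⌊y i⌋ : ℤ) : ℝ) + 1) :=
    Finset.sum_le_sum fun i _ => (Int.lt_floor_add_one _).le
  rw [Finset.sum_add_distrib, Finset.sum_const, nsmul_eq_mul, mul_one] at h4
  constructor
  · rw [sub_nonneg, Int.le_floor]
    push_cast
    linarith
  · have h5 := Int.floor_le (x + ∑ i ∈ s, y i)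
    have h6 : ((⌊x + ∑ i ∈ s, y i⌋ - (⌊x⌋ + ∑ i ∈ s, ⌊y i⌋) : ℤ) : ℝ) < (s.card : ℝ) + 1 := by
      push_cast
      linarith
    have h7 : ((⌊x + ∑ i ∈ s, y i⌋ - (⌊x⌋ + ∑ i ∈ s, ⌊y i⌋) : ℤ) : ℝ) <
        (((s.card : ℤ) + 1 : ℤ) : ℝ) := by
      rw [Int.cast_add, Int.cast_one, Int.cast_natCast]
      exact h6
    have h8 := Int.cast_lt.mp h7
    omega

lemma floor_near {c x y : ℝ} (hc : c ≠ 0) (h : ⌊c * x⌋ = ⌊c * y⌋) (A : ℝ) (hA : 0 ≤ A) :
    |((⌊A * x⌋ - ⌊A * y⌋ : ℤ) : ℝ)| ≤ A / |c| + 1 := by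
  have hc' : 0 < |c| := abs_pos.mpr hc
  have h1 : |c * x - c * y| < 1 := Int.abs_sub_lt_one_of_floor_eq_floor h
  have h2 : |A * x - A * y| ≤ A / |c| := by
    have e : A * x - A * y = A / c * (c * x - c * y) := by
      field_simp
    rw [e, abs_mul, abs_div, abs_of_nonneg hA]
    exact mul_le_of_le_one_right (by positivity) h1.le
  have h3 := Int.floor_le (A * x)
  have h4 := Int.lt_floor_add_one (A * x)
  have h5 := Int.floor_le (A * y)
  have h6 := Int.lt_floor_add_one (A * y)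
  have h7 := abs_le.mp h2
  rw [abs_le]
  push_cast
  constructor <;> linarith

end Pool.STE.CM

namespace Pool.STE

open Finset Real
open Pool.Agent.H49.Ent Pool.Agent.H32.Dense Pool.STK Pool.KA

theorem cm : CMStmt := by
  intro m n
  have hm : (0 : ℝ) ≤ m := Nat.cast_nonneg m
  have hnn : (0 : ℝ) ≤ n := Nat.cast_nonneg n
  have hl1 : 1 ≤ Real.log 5 := by
    rw [Real.le_log_iff_exp_le (by norm_num)]
    have := Real.exp_one_lt_d9
    linarith
  have hl2 : 0 ≤ Real.log (2 * (2 * (n : ℝ)) + 1) := Real.log_nonneg (by linarith)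
  have hl3 : 0 ≤ Real.log (2 * (n : ℝ) + 1) := Real.log_nonneg (by linarith)
  have hn1 : 0 ≤ m * Real.log 5 := mul_nonneg hm (by linarith)
  have hn2 := mul_nonneg hm hl2
  have hn3 := mul_nonneg hm hl3
  refine ⟨m * Real.log 5 + m * Real.log (2 * (2 * (n : ℝ)) + 1) + m * Real.log (2 * (n : ℝ) + 1),
    by positivity, ?_⟩
  intro Ω _ p u d hp hu hd k t₀ h i₀ ht0 ht1 hh
  have hK : (0 : ℝ) < 2 ^ k := by positivity
  have hK1 : (1 : ℝ) ≤ 2 ^ k := one_le_pow₀ (by norm_num)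
  set l : Ω → QL m n := fun ω =>
    (fun i => ⌊(2 : ℝ) ^ k * (u ω i + t₀ * d ω i)⌋, fun j i => ⌊(2 ^ k * h j) * d ω i⌋) with hl
  -- the error
  have herr : ∀ (w : Finset (Fin n)) (ω : Ω) (i : Fin m),
      0 ≤ Xp u d (t₀ + ∑ j ∈ w, h j) k ω i - evq w (l ω) i ∧
      Xp u d (t₀ + ∑ j ∈ w, h j) k ω i - evq w (l ω) i ≤ n := by
    intro w ω i
    have h1 := CM.fl_sum w ((2 : ℝ) ^ k * (u ω i + t₀ * d ω i)) (fun j => (2 ^ k * h j) * d ω i)
    have h2 : Xp u d (t₀ + ∑ j ∈ w, h j) k ω i =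
        ⌊(2 : ℝ) ^ k * (u ω i + t₀ * d ω i) + ∑ j ∈ w, (2 ^ k * h j) * d ω i⌋ := by
      show ⌊(2 : ℝ) ^ k * (u ω i + (t₀ + ∑ j ∈ w, h j) * d ω i)⌋ = _
      congr 1
      rw [← Finset.sum_mul, ← Finset.mul_sum]
      ring
    have h3 : evq w (l ω) i = ⌊(2 : ℝ) ^ k * (u ω i + t₀ * d ω i)⌋ +
        ∑ j ∈ w, ⌊(2 ^ k * h j) * d ω i⌋ := by
      unfold evq
      rw [Pi.add_apply, Finset.sum_apply]
    have h4 : (w.card : ℤ) ≤ n := by
      have := Finset.card_le_univ w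
      rw [Fintype.card_fin] at this
      exact_mod_cast this
    rw [h2, h3]
    exact ⟨h1.1, h1.2.trans h4⟩
  refine ⟨l, fun ω i => 2 ^ k * d ω i, ?_, ?_, ?_, ?_⟩
  · -- bounds
    intro ω i
    obtain ⟨hu0, hu1⟩ := hu ω i
    obtain ⟨hd0, hd1⟩ := hd ω i
    have h0 : 0 ≤ t₀ * d ω i := mul_nonneg ht0 hd0
    have h1 : t₀ * d ω i ≤ 1 := by nlinarith
    have hpow : (2 : ℝ) ^ (k + 1) = 2 * 2 ^ k := by ring
    constructor
    · show |((⌊(2 : ℝ) ^ k * (u ω i + t₀ * d ω i)⌋ : ℤ) : ℝ)| ≤ _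
      have h2 : 0 ≤ (2 : ℝ) ^ k * (u ω i + t₀ * d ω i) := by positivity
      have h3 : (0 : ℝ) ≤ (⌊(2 : ℝ) ^ k * (u ω i + t₀ * d ω i)⌋ : ℤ) := by
        exact_mod_cast Int.floor_nonneg.mpr h2
      rw [abs_of_nonneg h3, hpow]
      refine (Int.floor_le _).trans ?_
      nlinarith
    · intro j
      show |((⌊(2 ^ k * h j) * d ω i⌋ : ℤ) : ℝ)| ≤ _
      have h2 : |(2 ^ k * h j) * d ω i| ≤ 2 ^ k := by
        rw [abs_mul, abs_mul, abs_of_pos hK, abs_of_nonneg hd0]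
        have h3 := (hh j).2
        have h4 := abs_nonneg (h j)
        calc 2 ^ k * |h j| * d ω i ≤ 2 ^ k * 1 * 1 := by
              apply mul_le_mul _ hd1.le hd0 (by positivity)
              exact mul_le_mul_of_nonneg_left h3 hK.le
          _ = 2 ^ k := by ring
      obtain ⟨h3, h4⟩ := abs_le.mp h2
      have h5 := Int.floor_le ((2 ^ k * h j) * d ω i)
      have h6 := Int.lt_floor_add_one ((2 ^ k * h j) * d ω i)
      rw [hpow, abs_le]
      constructor <;> linarith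
  · -- closeness
    intro ω j i
    show |((⌊(2 ^ k * h j) * d ω i⌋ : ℤ) : ℝ) - h j * (2 ^ k * d ω i)| ≤ 1
    have h5 := Int.floor_le ((2 ^ k * h j) * d ω i)
    have h6 := Int.lt_floor_add_one ((2 ^ k * h j) * d ω i)
    have h7 : h j * (2 ^ k * d ω i) = (2 ^ k * h j) * d ω i := by ring
    rw [h7, abs_le]
    constructor <;> linarith
  · -- the direction
    have hi0 : 0 < |h i₀| := abs_pos.mpr (hh i₀).1
    have hi1 : 1 ≤ 1 / |h i₀| := by
      rw [le_div_iff₀ hi0]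
      linarith [(hh i₀).2]
    have h1 := STK.CMP.H_near hp.nonneg hp.sum_one (Fl d k) (fun ω => (l ω).2 i₀)
      (1 / |h i₀| + 1) (by
      intro ω ω' e i
      have h2 : ⌊(2 ^ k * h i₀) * d ω i⌋ = ⌊(2 ^ k * h i₀) * d ω' i⌋ := congrFun e i
      have h3 := CM.floor_near (mul_ne_zero hK.ne' (hh i₀).1) h2 ((2 : ℝ) ^ k) hK.le
      have h4 : (2 : ℝ) ^ k / |2 ^ k * h i₀| = 1 / |h i₀| := by
        rw [abs_mul, abs_of_pos hK]
        field_simp
      rw [h4] at h3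
      exact h3)
    have h2 : Real.log (2 * (1 / |h i₀| + 1) + 1) ≤ Real.log 5 + Real.log (1 / |h i₀|) := by
      rw [← Real.log_mul (by norm_num) (by positivity)]
      exact Real.log_le_log (by positivity) (by linarith)
    have h3 : 0 ≤ Real.log (1 / |h i₀|) := Real.log_nonneg hi1
    have h4 : m * Real.log (2 * (1 / |h i₀| + 1) + 1) ≤
        m * Real.log 5 * (1 + Real.log (1 / |h i₀|)) := by
      refine (mul_le_mul_of_nonneg_left h2 hm).trans ?_
      have h5 : Real.log (1 / |h i₀|) ≤ Real.log 5 * Real.log (1 / |h i₀|) :=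
        le_mul_of_one_le_left h3 hl1
      calc (m : ℝ) * (Real.log 5 + Real.log (1 / |h i₀|))
          ≤ m * (Real.log 5 + Real.log 5 * Real.log (1 / |h i₀|)) :=
            mul_le_mul_of_nonneg_left (by linarith) hm
        _ = _ := by ring
    have h5 : m * Real.log 5 * (1 + Real.log (1 / |h i₀|)) ≤
        (m * Real.log 5 + m * Real.log (2 * (2 * (n : ℝ)) + 1) + m * Real.log (2 * (n : ℝ) + 1)) *
          (1 + Real.log (1 / |h i₀|)) :=
      mul_le_mul_of_nonneg_right (by linarith) (by linarith)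
    linarith
  · intro w
    have hcast : ∀ (z : ℤ) (n : ℕ), |z| ≤ n → |(z : ℝ)| ≤ (n : ℝ) := by
      intro z n hz
      rw [← Int.cast_abs]
      exact_mod_cast hz
    have e1 := herr w
    have hA := STK.CMP.H_near hp.nonneg hp.sum_one (fun ω => evq w (l ω))
      (Xp u d (t₀ + ∑ j ∈ w, h j) k) n (by
      intro ω ω' e i
      have h1 := e1 ω i
      have h2 := e1 ω' i
      have h3 := congrFun e i
      apply hcast
      rw [abs_le]
      constructor <;> omega)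
    have hB := STK.CMP.H_near hp.nonneg hp.sum_one (Xp u d (t₀ + ∑ j ∈ w, h j) k)
      (fun ω => evq w (l ω)) n (by
      intro ω ω' e i
      have h1 := e1 ω i
      have h2 := e1 ω' i
      have h3 : evq w (l ω) i = evq w (l ω') i := congrFun e i
      apply hcast
      rw [abs_le]
      constructor <;> omega)
    have hC := STK.CMP.H_near (STK.CMP.pr2_law hp).nonneg (STK.CMP.pr2_law hp).sum_one
      (fun v : Ω × Ω => evq w (l v.2) - evq w (l v.1))
      (fun v : Ω × Ω => Xp u d (t₀ + ∑ j ∈ w, h j) k v.2 - Xp u d (t₀ + ∑ j ∈ w, h j) k v.1)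
      (2 * n) (by
      intro v v' e i
      have h1 := e1 v.1 i
      have h2 := e1 v'.1 i
      have h3 := e1 v.2 i
      have h4 := e1 v'.2 i
      have h5 : Xp u d (t₀ + ∑ j ∈ w, h j) k v.2 i - Xp u d (t₀ + ∑ j ∈ w, h j) k v.1 i =
        Xp u d (t₀ + ∑ j ∈ w, h j) k v'.2 i - Xp u d (t₀ + ∑ j ∈ w, h j) k v'.1 i :=
        congrFun e i
      have h6 := hcast ((evq w (l v.2) i - evq w (l v.1) i) -
        (evq w (l v'.2) i - evq w (l v'.1) i)) (2 * n) (by
          rw [abs_le]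
          push_cast
          constructor <;> omega)
      push_cast at h6
      have h7 : (((fun v : Ω × Ω => evq w (l v.2) - evq w (l v.1)) v i -
        (fun v : Ω × Ω => evq w (l v.2) - evq w (l v.1)) v' i : ℤ) : ℝ) =
        (evq w (l v.2) i : ℝ) - evq w (l v.1) i - (evq w (l v'.2) i - evq w (l v'.1) i) := by
        simp only [Pi.sub_apply]
        push_cast
        ring
      rw [h7]
      exact h6)
    constructor
    · linarith
    · linarith

end Pool.STE
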